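import Mathlib

/-!
# Packing lemmas for segments of a line
-/

set_option autoImplicit false

namespace Pool.Agent.Helper310.Strip

open Finset

section

variable {α : Type*} (R : Finset α) (P s : α → ℕ) (m : ℕ)

/-- cells of the line not covered by the segments of `R` -/
def idle : Finset ℕ := (range m).filter fun x => ∀ j ∈ R, ¬ (P j ≤ x ∧ x < P j + s j)

/-- the segments of `R` form a packing of the line -/
structure IsPacking : Prop where
  fits : ∀ j ∈ R, P j + s j ≤ m
  disj : ∀ j ∈ R, ∀ k ∈ R, ∀ x, P j ≤ x → x < P j + s j → P k ≤ x → x < P k + s k → j = k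

variable {R P s m}

lemma mem_idle {x : ℕ} : x ∈ idle R P s m ↔
    x < m ∧ ∀ j ∈ R, ¬ (P j ≤ x ∧ x < P j + s j) := by
  simp [idle]

lemma card_idle (h : IsPacking R P s m) : (idle R P s m).card + ∑ j ∈ R, s j = m := by
  classical
  have h1 : range m = idle R P s m ∪ R.biUnion fun j => Ico (P j) (P j + s j) := by
    ext x
    simp only [mem_range, mem_union, mem_biUnion, mem_Ico, mem_idle]
    constructor
    · intro hx
      by_cases hc : ∃ j ∈ R, P j ≤ x ∧ x < P j + s j
      · exact Or.inr hc
      · refine Or.inl ⟨hx, fun j hj hjx => hc ⟨j, hj, hjx⟩⟩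
    · rintro (⟨hx, _⟩ | ⟨j, hj, _, hx⟩)
      · exact hx
      · exact lt_of_lt_of_le hx (h.fits j hj)
  have h2 : Disjoint (idle R P s m) (R.biUnion fun j => Ico (P j) (P j + s j)) := by
    rw [disjoint_left]
    intro x hx hx'
    rw [mem_biUnion] at hx'
    obtain ⟨j, hj, hjx⟩ := hx'
    exact (mem_idle.1 hx).2 j hj (mem_Ico.1 hjx)
  have h3 : (R.biUnion fun j => Ico (P j) (P j + s j)).card = ∑ j ∈ R, s j := by
    rw [card_biUnion]
    · apply sum_congr rfl
      intro j _
      rw [Nat.card_Ico]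
      omega
    · intro j hj k hk hjk
      rw [Function.onFun, disjoint_left]
      intro x hx hx'
      rw [mem_Ico] at hx hx'
      exact hjk (h.disj j hj k hk x hx.1 hx.2 hx'.1 hx'.2)
  have h4 := card_union_of_disjoint h2
  rw [← h1, card_range, h3] at h4
  omega

/-- the jobs of size `w` with an idle cell directly to the right -/
def EL (R : Finset α) (P s : α → ℕ) (m w : ℕ) : Finset α :=
  R.filter fun j => s j = w ∧ P j + w ∈ idle R P s m

/-- the jobs of size `w` with an idle cell directly to the left -/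
def ER (R : Finset α) (P s : α → ℕ) (m w : ℕ) : Finset α :=
  R.filter fun j => s j = w ∧ 1 ≤ P j ∧ P j - 1 ∈ idle R P s m

lemma P_inj (h : IsPacking R P s m) {w : ℕ} (hw : 1 ≤ w) {j k : α} (hj : j ∈ R) (hk : k ∈ R)
    (hsj : s j = w) (hsk : s k = w) (hP : P j = P k) : j = k :=
  h.disj j hj k hk (P j) le_rfl (by omega) (by omega) (by omega)

/-- disjoint segments of size `c` contained in the set of idle cells -/
structure IdleFamily {ι : Type*} (Y : Finset ι) (p : ι → ℕ) (c : ℕ) (J : Finset ℕ) : Prop where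
  sub : ∀ y ∈ Y, ∀ x, p y ≤ x → x < p y + c → x ∈ J
  disj : ∀ y ∈ Y, ∀ z ∈ Y, ∀ x, p y ≤ x → x < p y + c → p z ≤ x → x < p z + c → y = z

lemma IdleFamily.card_le {ι : Type*} {Y : Finset ι} {p : ι → ℕ} {c : ℕ} {J : Finset ℕ}
    (h : IdleFamily Y p c J) : c * Y.card ≤ J.card := by
  classical
  have h3 : (Y.biUnion fun y => Ico (p y) (p y + c)).card = ∑ y ∈ Y, c := by
    rw [card_biUnion]
    · apply sum_congr rfl
      intro j _
      rw [Nat.card_Ico]
      omega
    · intro j hj k hk hjk
      rw [Function.onFun, disjoint_left]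
      intro x hx hx'
      rw [mem_Ico] at hx hx'
      exact hjk (h.disj j hj k hk x hx.1 hx.2 hx'.1 hx'.2)
  have h4 : (Y.biUnion fun y => Ico (p y) (p y + c)) ⊆ J := by
    intro x hx
    rw [mem_biUnion] at hx
    obtain ⟨y, hy, hx⟩ := hx
    rw [mem_Ico] at hx
    exact h.sub y hy x hx.1 hx.2
  have h5 := Finset.card_le_card h4
  rw [h3, sum_const, smul_eq_mul] at h5
  rw [mul_comm]
  exact h5

lemma card_EL_add {ι : Type*} {Y : Finset ι} {p : ι → ℕ} {c w : ℕ} (hc : 2 ≤ c) (hw : 1 ≤ w)
    (hR : IsPacking R P s m) (hY : IdleFamily Y p c (idle R P s m)) :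
    (EL R P s m w).card + Y.card ≤ (idle R P s m).card := by
  classical
  have h1 : ((EL R P s m w).image fun j => P j + w).card = (EL R P s m w).card := by
    apply card_image_of_injOn
    intro j hj k hk hjk
    rw [mem_coe] at hj hk
    simp only [EL, mem_filter] at hj hk
    exact P_inj hR hw hj.1 hk.1 hj.2.1 hk.2.1 (by simpa using hjk)
  have h2 : (Y.image fun y => p y + 1).card = Y.card := by
    apply card_image_of_injOn
    intro y hy z hz hyz
    have : p y = p z := by simpa using hyz
    exact hY.disj y hy z hz (p y) le_rfl (by omega) (by omega) (by omega)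
  rw [← h1, ← h2, ← card_union_of_disjoint]
  · apply Finset.card_le_card
    intro x hx
    rw [mem_union, mem_image, mem_image] at hx
    rcases hx with ⟨j, hj, rfl⟩ | ⟨y, hy, rfl⟩
    · simp only [EL, mem_filter] at hj
      exact hj.2.2
    · exact hY.sub y hy _ (by omega) (by omega)
  · rw [disjoint_left]
    intro x hx hx'
    rw [mem_image] at hx hx'
    obtain ⟨j, hj, rfl⟩ := hx
    obtain ⟨y, hy, hyx⟩ := hx'
    simp only [EL, mem_filter] at hj
    have h3 := hY.sub y hy (p y) le_rfl (by omega)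
    exact (mem_idle.1 h3).2 j hj.1 (by omega)

lemma card_ER_add {ι : Type*} {Y : Finset ι} {p : ι → ℕ} {c w : ℕ} (hc : 2 ≤ c) (hw : 1 ≤ w)
    (hR : IsPacking R P s m) (hY : IdleFamily Y p c (idle R P s m)) :
    (ER R P s m w).card + Y.card ≤ (idle R P s m).card := by
  classical
  have h1 : ((ER R P s m w).image fun j => P j - 1).card = (ER R P s m w).card := by
    apply card_image_of_injOn
    intro j hj k hk hjk
    rw [mem_coe] at hj hk
    simp only [ER, mem_filter] at hj hk
    have : P j - 1 = P k - 1 := hjk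
    exact P_inj hR hw hj.1 hk.1 hj.2.1 hk.2.1 (by omega)
  have h2 : (Y.image fun y => p y).card = Y.card := by
    apply card_image_of_injOn
    intro y hy z hz hyz
    have : p y = p z := by simpa using hyz
    exact hY.disj y hy z hz (p y) le_rfl (by omega) (by omega) (by omega)
  rw [← h1, ← h2, ← card_union_of_disjoint]
  · apply Finset.card_le_card
    intro x hx
    rw [mem_union, mem_image, mem_image] at hx
    rcases hx with ⟨j, hj, rfl⟩ | ⟨y, hy, rfl⟩
    · simp only [ER, mem_filter] at hj
      exact hj.2.2.2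
    · exact hY.sub y hy _ (by omega) (by omega)
  · rw [disjoint_left]
    intro x hx hx'
    rw [mem_image] at hx hx'
    obtain ⟨j, hj, rfl⟩ := hx
    obtain ⟨y, hy, hyx⟩ := hx'
    simp only [ER, mem_filter] at hj
    have h3 := hY.sub y hy (p y + 1) (by omega) (by omega)
    exact (mem_idle.1 h3).2 j hj.1 (by omega)

/-- rank of a job among the jobs of size `w`, from left to right -/
def rk (R : Finset α) (P s : α → ℕ) (w : ℕ) (j : α) : ℕ :=
  (R.filter fun k => s k = w ∧ P k < P j).card

lemma rk_succ (hR : IsPacking R P s m) {w : ℕ} (hw : 1 ≤ w) {j k : α} (hj : j ∈ R)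
    (hsj : s j = w) (hjk : P j + w = P k) :
    rk R P s w k = rk R P s w j + 1 := by
  classical
  unfold rk
  have h1 : (R.filter fun i => s i = w ∧ P i < P k) =
      insert j (R.filter fun i => s i = w ∧ P i < P j) := by
    ext i
    simp only [mem_filter, mem_insert]
    constructor
    · rintro ⟨hi, hsi, hPi⟩
      by_cases hij : P i < P j
      · exact Or.inr ⟨hi, hsi, hij⟩
      · left
        exact hR.disj i hi j hj (P i) le_rfl (by omega) (by omega) (by omega)
    · rintro (rfl | ⟨hi, hsi, hPi⟩)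
      · exact ⟨hj, hsj, by omega⟩
      · exact ⟨hi, hsi, by omega⟩
  rw [h1, card_insert_of_notMem]
  simp

/-- **Kill lemma.** Among the jobs of size `w` one can select at least half of those without an
idle neighbour cell, such that a segment which avoids all other jobs is idle or lies in the
segment of one selected job. -/
theorem exists_kill (hR : IsPacking R P s m) {w : ℕ} (hw : 1 ≤ w) :
    ∃ X : Finset α, X ⊆ R ∧ (∀ j ∈ X, s j = w) ∧
      (R.filter fun j => s j = w).card ≤
        2 * X.card + (EL R P s m w).card + (ER R P s m w).card ∧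
      ∀ p c : ℕ, p + c ≤ m →
        (∀ j ∈ R, j ∉ X → ∀ x, p ≤ x → x < p + c → ¬ (P j ≤ x ∧ x < P j + s j)) →
        (∀ x, p ≤ x → x < p + c → x ∈ idle R P s m) ∨
          ∃ j ∈ X, P j ≤ p ∧ p + c ≤ P j + w := by
  classical
  set T : Finset α := (R.filter fun j => s j = w) \ (EL R P s m w ∪ ER R P s m w) with hT
  have hTcard : (R.filter fun j => s j = w).card ≤
      T.card + (EL R P s m w).card + (ER R P s m w).card := by
    have h1 : (R.filter fun j => s j = w) ⊆ T ∪ (EL R P s m w ∪ ER R P s m w) := by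
      intro j hj
      rw [hT, sdiff_union_self_eq_union, mem_union]
      exact Or.inl hj
    have h2 := Finset.card_le_card h1
    have h3 := card_union_le T (EL R P s m w ∪ ER R P s m w)
    have h4 := card_union_le (EL R P s m w) (ER R P s m w)
    omega
  have hsplit : (T.filter fun j => rk R P s w j % 2 = 0).card +
      (T.filter fun j => rk R P s w j % 2 = 1).card = T.card := by
    rw [← card_union_of_disjoint]
    · congr 1
      ext j
      simp only [mem_union, mem_filter]
      constructor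
      · rintro (h | h)
        · exact h.1
        · exact h.1
      · intro hj
        rcases Nat.mod_two_eq_zero_or_one (rk R P s w j) with h | h
        · exact Or.inl ⟨hj, h⟩
        · exact Or.inr ⟨hj, h⟩
    · rw [disjoint_left]
      intro j hj hj'
      rw [mem_filter] at hj hj'
      omega
  obtain ⟨ε, hε⟩ : ∃ ε : ℕ, T.card ≤ 2 * (T.filter fun j => rk R P s w j % 2 = ε).card := by
    by_cases h : T.card ≤ 2 * (T.filter fun j => rk R P s w j % 2 = 0).card
    · exact ⟨0, h⟩
    · exact ⟨1, by omega⟩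
  set X : Finset α := T.filter fun j => rk R P s w j % 2 = ε with hX
  have hXmem : ∀ j ∈ X, j ∈ R ∧ s j = w ∧ P j + w ∉ idle R P s m ∧
      (1 ≤ P j → P j - 1 ∉ idle R P s m) ∧ rk R P s w j % 2 = ε := by
    intro j hj
    rw [hX, mem_filter, hT, mem_sdiff, mem_union, mem_filter] at hj
    obtain ⟨⟨⟨h1, h2⟩, h3⟩, h4⟩ := hj
    refine ⟨h1, h2, ?_, ?_, h4⟩
    · intro h5
      apply h3
      left
      simp only [EL, mem_filter]
      exact ⟨h1, h2, h5⟩
    · intro h6 h5
      apply h3
      right
      simp only [ER, mem_filter]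
      exact ⟨h1, h2, h6, h5⟩
  refine ⟨X, fun j hj => (hXmem j hj).1, fun j hj => (hXmem j hj).2.1, by omega, ?_⟩
  intro p c hpc havoid
  by_cases hall : ∀ x, p ≤ x → x < p + c → x ∈ idle R P s m
  · exact Or.inl hall
  right
  push Not at hall
  obtain ⟨y, hy1, hy2, hy3⟩ := hall
  -- a cell of the segment that is not idle belongs to a selected job
  have hcell : ∀ x, p ≤ x → x < p + c → x ∉ idle R P s m →
      ∃ j ∈ X, P j ≤ x ∧ x < P j + w := by
    intro x hx1 hx2 hx3
    rw [mem_idle] at hx3
    push Not at hx3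
    obtain ⟨j, hj, hj1, hj2⟩ := hx3 (by omega)
    by_cases hjX : j ∈ X
    · refine ⟨j, hjX, hj1, ?_⟩
      rw [← (hXmem j hjX).2.1]
      exact hj2
    · exact absurd ⟨hj1, hj2⟩ (havoid j hj hjX x hx1 hx2)
  obtain ⟨j, hjX, hj1, hj2⟩ := hcell y hy1 hy2 hy3
  obtain ⟨hjR, hsj, hjL, hjR', hjε⟩ := hXmem j hjX
  refine ⟨j, hjX, ?_, ?_⟩
  · by_contra hlt
    push Not at hlt
    obtain ⟨k, hkX, hk1, hk2⟩ := hcell (P j - 1) (by omega) (by omega) (hjR' (by omega))
    obtain ⟨hkR, hsk, _, _, hkε⟩ := hXmem k hkX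
    have hne : k ≠ j := by
      rintro rfl
      omega
    have hadj : P k + w = P j := by
      by_contra hne'
      have : P j < P k + w := by omega
      exact hne (hR.disj k hkR j hjR (P j) (by omega) (by omega) le_rfl (by omega))
    have := rk_succ hR hw hkR hsk hadj
    omega
  · by_contra hlt
    push Not at hlt
    obtain ⟨k, hkX, hk1, hk2⟩ := hcell (P j + w) (by omega) (by omega) hjL
    obtain ⟨hkR, hsk, _, _, hkε⟩ := hXmem k hkX
    have hne : k ≠ j := by
      rintro rfl
      omega
    have hadj : P j + w = P k := by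
      by_contra hne'
      have : P k < P j + w := by omega
      by_cases hkj : P k ≤ P j
      · exact hne (hR.disj k hkR j hjR (P j) (by omega) (by omega) le_rfl (by omega))
      · exact hne (hR.disj k hkR j hjR (P k) le_rfl (by omega) (by omega) (by omega))
    have := rk_succ hR hw hjR hsj hadj
    omega

/-- **Attack with long jobs of size `3` only.** -/
theorem attack_two (hR : IsPacking R P s m) :
    ∃ X : Finset α, X ⊆ R ∧ (∀ j ∈ X, s j = 2) ∧
      (R.filter fun j => s j = 2).card ≤ 2 * X.card + 2 * (idle R P s m).card ∧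
      ∀ {ι : Type} (Y : Finset ι) (p : ι → ℕ), (∀ y ∈ Y, p y + 3 ≤ m) →
        (∀ y ∈ Y, ∀ z ∈ Y, ∀ x, p y ≤ x → x < p y + 3 → p z ≤ x → x < p z + 3 → y = z) →
        (∀ y ∈ Y, ∀ j ∈ R, j ∉ X → ∀ x, p y ≤ x → x < p y + 3 →
          ¬ (P j ≤ x ∧ x < P j + s j)) →
        3 * Y.card ≤ (idle R P s m).card := by
  classical
  obtain ⟨X, h1, h2, h3, h4⟩ := exists_kill hR (w := 2) (by norm_num)
  have hE : IdleFamily (∅ : Finset ℕ) (fun x => x) 2 (idle R P s m) :=
    ⟨by simp, by simp⟩
  have h5 := card_EL_add (w := 2) le_rfl (by norm_num) hR hE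
  have h6 := card_ER_add (w := 2) le_rfl (by norm_num) hR hE
  rw [card_empty] at h5 h6
  refine ⟨X, h1, h2, by omega, ?_⟩
  intro ι Y p hfit hdisj havoid
  apply IdleFamily.card_le (p := p)
  refine ⟨?_, hdisj⟩
  intro y hy
  rcases h4 (p y) 3 (hfit y hy) (havoid y hy) with h | ⟨j, _, h7, h8⟩
  · exact h
  · omega

/-- **Attack with long jobs of size `2` only.** -/
theorem attack_three (hR : IsPacking R P s m) :
    ∃ (X : Finset α) (K : ℕ), X ⊆ R ∧ (∀ j ∈ X, s j = 3) ∧
      2 * K ≤ (idle R P s m).card ∧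
      (R.filter fun j => s j = 3).card + 2 * K ≤ 2 * X.card + 2 * (idle R P s m).card ∧
      ∀ {ι : Type} (Y : Finset ι) (p : ι → ℕ), (∀ y ∈ Y, p y + 2 ≤ m) →
        (∀ y ∈ Y, ∀ z ∈ Y, ∀ x, p y ≤ x → x < p y + 2 → p z ≤ x → x < p z + 2 → y = z) →
        (∀ y ∈ Y, ∀ j ∈ R, j ∉ X → ∀ x, p y ≤ x → x < p y + 2 →
          ¬ (P j ≤ x ∧ x < P j + s j)) →
        Y.card ≤ X.card + K := by
  classical
  obtain ⟨X, h1, h2, h3, h4⟩ := exists_kill hR (w := 3) (by norm_num)
  have hE : IdleFamily (∅ : Finset ℕ) (fun x => x) 2 (idle R P s m) :=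
    ⟨by simp, by simp⟩
  have h5 := card_EL_add (w := 3) le_rfl (by norm_num) hR hE
  have h6 := card_ER_add (w := 3) le_rfl (by norm_num) hR hE
  rw [card_empty] at h5 h6
  set I := (idle R P s m).card with hI
  set K : ℕ := min (I / 2) (min (I - (EL R P s m 3).card) (I - (ER R P s m 3).card)) with hK
  have hK1 : K ≤ I / 2 := min_le_left _ _
  have hK2 : K ≤ I - (EL R P s m 3).card := (min_le_right _ _).trans (min_le_left _ _)
  have hK3 : K ≤ I - (ER R P s m 3).card := (min_le_right _ _).trans (min_le_right _ _)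
  refine ⟨X, K, h1, h2, by omega, by omega, ?_⟩
  intro ι Y p hfit hdisj havoid
  set Y₀ := Y.filter fun y => ∀ x, p y ≤ x → x < p y + 2 → x ∈ idle R P s m with hY₀
  set Y₁ := Y.filter fun y => ¬ ∀ x, p y ≤ x → x < p y + 2 → x ∈ idle R P s m with hY₁
  have hsum : Y₀.card + Y₁.card = Y.card := card_filter_add_card_filter_not _
  have hF : IdleFamily Y₀ p 2 (idle R P s m) := by
    constructor
    · intro y hy
      rw [hY₀, mem_filter] at hy
      exact hy.2
    · intro y hy z hz
      rw [hY₀, mem_filter] at hy hz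
      exact hdisj y hy.1 z hz.1
  have h7 := hF.card_le
  have h8 := card_EL_add (w := 3) le_rfl (by norm_num) hR hF
  have h9 := card_ER_add (w := 3) le_rfl (by norm_num) hR hF
  have h10 : Y₀.card ≤ K := by
    rw [hK, le_min_iff, le_min_iff]
    omega
  have h11 : Y₁.card ≤ X.card := by
    have hsel : ∀ y ∈ Y₁, ∃ j ∈ X, P j ≤ p y ∧ p y + 2 ≤ P j + 3 := by
      intro y hy
      rw [hY₁, mem_filter] at hy
      rcases h4 (p y) 2 (hfit y hy.1) (havoid y hy.1) with h | h
      · exact absurd h hy.2
      · exact h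
    rcases Y₁.eq_empty_or_nonempty with he | ⟨y₀, hy₀⟩
    · rw [he, card_empty]
      exact Nat.zero_le _
    haveI : Nonempty α := ⟨(hsel y₀ hy₀).choose⟩
    choose! f hf1 hf2 using hsel
    apply card_le_card_of_injOn f hf1
    intro y hy z hz hyz
    have hy' := hf2 y hy
    have hz' := hf2 z hz
    have hyY : y ∈ Y := (mem_filter.1 (by rw [← hY₁]; exact hy)).1
    have hzY : z ∈ Y := (mem_filter.1 (by rw [← hY₁]; exact hz)).1
    have hyz' : f y = f z := hyz
    rw [hyz'] at hy'
    exact hdisj y hyY z hzY (P (f z) + 1) (by omega) (by omega) (by omega) (by omega)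
  omega

end

end Pool.Agent.Helper310.Strip
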