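import Pool.Agent.Helper310.Strip.Defs

/-!
# An offline schedule of makespan 1
-/

set_option autoImplicit false

namespace Pool.Agent.Helper310.Strip

open Finset

/-- number of elements of `X` below `j` -/
def rank {n : ℕ} (X : Finset (Fin n)) (j : Fin n) : ℕ := (X.filter fun k => k < j).card

lemma rank_lt {n : ℕ} {X : Finset (Fin n)} {j : Fin n} (hj : j ∈ X) : rank X j < X.card := by
  apply Finset.card_lt_card
  refine ⟨filter_subset _ _, ?_⟩
  intro h
  have := h hj
  simp at this

lemma rank_lt_rank {n : ℕ} {X : Finset (Fin n)} {j k : Fin n} (hj : j ∈ X) (hjk : j < k) :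
    rank X j < rank X k := by
  apply Finset.card_lt_card
  refine ⟨?_, ?_⟩
  · intro i hi
    rw [mem_filter] at hi ⊢
    exact ⟨hi.1, hi.2.trans hjk⟩
  · intro h
    have h1 : j ∈ X.filter fun i => i < k := mem_filter.2 ⟨hj, hjk⟩
    have := h h1
    simp at this

lemma rank_inj {n : ℕ} {X : Finset (Fin n)} {j k : Fin n} (hj : j ∈ X) (hk : k ∈ X)
    (h : rank X j = rank X k) : j = k := by
  rcases lt_trichotomy j k with h1 | h1 | h1
  · exact absurd h (rank_lt_rank hj h1).ne
  · exact h1
  · exact absurd h (rank_lt_rank hk h1).ne'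

/-- total size of the elements of `F` below `j` -/
def pre {n : ℕ} (s : Fin n → ℕ) (F : Finset (Fin n)) (j : Fin n) : ℕ :=
  ∑ k ∈ F.filter (fun k => k < j), s k

lemma pre_add_le {n : ℕ} {s : Fin n → ℕ} {F : Finset (Fin n)} {j k : Fin n} (hj : j ∈ F)
    (hjk : j < k) : pre s F j + s j ≤ pre s F k := by
  unfold pre
  rw [add_comm, ← sum_insert (s := F.filter (fun i => i < j)) (a := j) (by simp)]
  apply sum_le_sum_of_subset
  intro i hi
  rw [mem_insert, mem_filter] at hi
  rw [mem_filter]
  rcases hi with rfl | hi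
  · exact ⟨hj, hjk⟩
  · exact ⟨hi.1, hi.2.trans hjk⟩

lemma pre_add_le_sum {n : ℕ} {s : Fin n → ℕ} {F : Finset (Fin n)} {j : Fin n} (hj : j ∈ F) :
    pre s F j + s j ≤ ∑ k ∈ F, s k := by
  unfold pre
  rw [add_comm, ← sum_insert (s := F.filter (fun i => i < j)) (a := j) (by simp)]
  apply sum_le_sum_of_subset
  intro i hi
  rw [mem_insert, mem_filter] at hi
  rcases hi with rfl | hi
  · exact hj
  · exact hi.1

lemma col_le {w a b : ℕ} (h : a < b) : w * a + w ≤ w * b := by
  calc w * a + w = w * (a + 1) := by ring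
    _ ≤ w * b := Nat.mul_le_mul_left _ h

lemma col_eq {w a b x : ℕ} (h1 : w * a ≤ x) (h2 : x < w * a + w) (h3 : w * b ≤ x)
    (h4 : x < w * b + w) : a = b := by
  rcases lt_trichotomy a b with h | h | h
  · have := col_le (w := w) h
    omega
  · exact h
  · have := col_le (w := w) h
    omega

lemma slot_eq {h a b : ℕ} (hh : 0 < h) {u : ℝ} (h1 : (a : ℝ) / h ≤ u) (h2 : u < (a : ℝ) / h + 1 / h)
    (h3 : (b : ℝ) / h ≤ u) (h4 : u < (b : ℝ) / h + 1 / h) : a = b := by
  have hh' : (0 : ℝ) < h := by exact_mod_cast hh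
  have e1 : (a : ℝ) ≤ u * h := by rwa [div_le_iff₀ hh'] at h1
  have e3 : (b : ℝ) ≤ u * h := by rwa [div_le_iff₀ hh'] at h3
  have e2 : u * h < a + 1 := by
    rw [← add_div, lt_div_iff₀ hh'] at h2
    exact h2
  have e4 : u * h < b + 1 := by
    rw [← add_div, lt_div_iff₀ hh'] at h4
    exact h4
  have f1 : (a : ℝ) < b + 1 := by linarith
  have f2 : (b : ℝ) < a + 1 := by linarith
  have g1 : a < b + 1 := by exact_mod_cast f1
  have g2 : b < a + 1 := by exact_mod_cast f2
  omega

/-- **Offline schedule.** Jobs of `F` of running time at most `1`, jobs of `X` of size `w` and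
running time at most `1/2` in `p` columns, jobs of `D` of size `c` and running time at most `1/h`
in `q` columns, all other jobs of running time `0`. -/
theorem exists_offline {n m : ℕ} (s : Fin n → ℕ) (t : Fin n → ℝ) (hs : ∀ j, s j ≤ m)
    (F X D : Finset (Fin n)) (w c p q h : ℕ) (hh : 0 < h)
    (hFX : Disjoint F X) (hFD : Disjoint F D) (hXD : Disjoint X D)
    (hF : ∀ j ∈ F, t j ≤ 1) (hX : ∀ j ∈ X, s j = w ∧ t j ≤ 1 / 2)
    (hD : ∀ j ∈ D, s j = c ∧ t j ≤ 1 / h) (h0 : ∀ j, j ∉ F → j ∉ X → j ∉ D → t j = 0)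
    (hXp : X.card ≤ 2 * p) (hDq : D.card ≤ h * q)
    (hm : ∑ j ∈ F, s j + w * p + c * q ≤ m) :
    ∃ σ : Schedule n, Feasible m s t σ ∧ FinishedBy t σ 1 := by
  classical
  have hh' : (0 : ℝ) < h := by exact_mod_cast hh
  set W := ∑ j ∈ F, s j with hW
  let σ : Schedule n :=
    { start := fun j => if j ∈ F then 0 else if j ∈ X then ((rank X j % 2 : ℕ) : ℝ) / (2 : ℕ)
        else if j ∈ D then ((rank D j % h : ℕ) : ℝ) / h else 0
      left := fun j => if j ∈ F then pre s F j else if j ∈ X then W + w * (rank X j / 2)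
        else if j ∈ D then W + w * p + c * (rank D j / h) else 0 }
  have hXF : ∀ {j}, j ∈ X → j ∉ F := fun hj hj' => disjoint_left.1 hFX hj' hj
  have hDF : ∀ {j}, j ∈ D → j ∉ F := fun hj hj' => disjoint_left.1 hFD hj' hj
  have hDX : ∀ {j}, j ∈ D → j ∉ X := fun hj hj' => disjoint_left.1 hXD hj' hj
  have hXs : ∀ {j}, j ∈ X → σ.start j = ((rank X j % 2 : ℕ) : ℝ) / (2 : ℕ) ∧
      σ.left j = W + w * (rank X j / 2) := by
    intro j hj
    simp only [σ]
    rw [if_neg (hXF hj), if_pos hj, if_neg (hXF hj), if_pos hj]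
    exact ⟨rfl, rfl⟩
  have hDs : ∀ {j}, j ∈ D → σ.start j = ((rank D j % h : ℕ) : ℝ) / h ∧
      σ.left j = W + w * p + c * (rank D j / h) := by
    intro j hj
    simp only [σ]
    rw [if_neg (hDF hj), if_neg (hDX hj), if_pos hj, if_neg (hDF hj), if_neg (hDX hj), if_pos hj]
    exact ⟨rfl, rfl⟩
  have hFs : ∀ {j}, j ∈ F → σ.start j = 0 ∧ σ.left j = pre s F j := by
    intro j hj
    simp only [σ]
    rw [if_pos hj, if_pos hj]
    exact ⟨rfl, rfl⟩
  have h0s : ∀ {j}, j ∉ F → j ∉ X → j ∉ D → σ.start j = 0 ∧ σ.left j = 0 := by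
    intro j hj1 hj2 hj3
    simp only [σ]
    rw [if_neg hj1, if_neg hj2, if_neg hj3, if_neg hj1, if_neg hj2, if_neg hj3]
    exact ⟨rfl, rfl⟩
  have hXcol : ∀ {j}, j ∈ X → w * (rank X j / 2) + w ≤ w * p := by
    intro j hj
    apply col_le
    have := rank_lt hj
    omega
  have hDcol : ∀ {j}, j ∈ D → c * (rank D j / h) + c ≤ c * q := by
    intro j hj
    apply col_le
    have := rank_lt hj
    rw [Nat.div_lt_iff_lt_mul hh, mul_comm]
    omega
  refine ⟨σ, ⟨?_, ?_, ?_⟩, ?_⟩
  · intro j
    by_cases hj1 : j ∈ F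
    · rw [(hFs hj1).1]
    by_cases hj2 : j ∈ X
    · rw [(hXs hj2).1]
      positivity
    by_cases hj3 : j ∈ D
    · rw [(hDs hj3).1]
      positivity
    · rw [(h0s hj1 hj2 hj3).1]
  · intro j
    by_cases hj1 : j ∈ F
    · rw [(hFs hj1).2]
      have := pre_add_le_sum (s := s) hj1
      omega
    by_cases hj2 : j ∈ X
    · rw [(hXs hj2).2, (hX j hj2).1]
      have := hXcol hj2
      omega
    by_cases hj3 : j ∈ D
    · rw [(hDs hj3).2, (hD j hj3).1]
      have := hDcol hj3
      omega
    · rw [(h0s hj1 hj2 hj3).2, zero_add]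
      exact hs j
  · rintro j k x u ⟨⟨hj1, hj2⟩, hj3, hj4⟩ ⟨⟨hk1, hk2⟩, hk3, hk4⟩
    -- jobs outside of the three sets have running time zero
    have hjm : j ∈ F ∨ j ∈ X ∨ j ∈ D := by
      by_contra hcon
      push Not at hcon
      rw [h0 j hcon.1 hcon.2.1 hcon.2.2] at hj4
      linarith
    have hkm : k ∈ F ∨ k ∈ X ∨ k ∈ D := by
      by_contra hcon
      push Not at hcon
      rw [h0 k hcon.1 hcon.2.1 hcon.2.2] at hk4
      linarith
    have key : ∀ {i}, i ∈ F → σ.left i ≤ x → x < σ.left i + s i → x < W := by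
      intro i hi _ h2
      rw [(hFs hi).2] at h2
      have := pre_add_le_sum (s := s) hi
      omega
    have keyX : ∀ {i}, i ∈ X → σ.left i ≤ x → x < σ.left i + s i → W ≤ x ∧ x < W + w * p := by
      intro i hi h1 h2
      rw [(hXs hi).2] at h1
      rw [(hXs hi).2, (hX i hi).1] at h2
      have := hXcol hi
      omega
    have keyD : ∀ {i}, i ∈ D → σ.left i ≤ x → x < σ.left i + s i → W + w * p ≤ x := by
      intro i hi h1 _
      rw [(hDs hi).2] at h1
      omega
    rcases hjm with hj | hj | hj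
    · have e1 := key hj hj1 hj2
      rcases hkm with hk | hk | hk
      · rw [(hFs hj).2] at hj1 hj2
        rw [(hFs hk).2] at hk1 hk2
        rcases lt_trichotomy j k with h | h | h
        · have := pre_add_le (s := s) hj h
          omega
        · exact h
        · have := pre_add_le (s := s) hk h
          omega
      · have := keyX hk hk1 hk2
        omega
      · have := keyD hk hk1 hk2
        omega
    · have e1 := keyX hj hj1 hj2
      rcases hkm with hk | hk | hk
      · have := key hk hk1 hk2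
        omega
      · rw [(hXs hj).2] at hj1
        rw [(hXs hj).2, (hX j hj).1] at hj2
        rw [(hXs hk).2] at hk1
        rw [(hXs hk).2, (hX k hk).1] at hk2
        have ecol : rank X j / 2 = rank X k / 2 :=
          col_eq (w := w) (x := x - W) (by omega) (by omega) (by omega) (by omega)
        rw [(hXs hj).1] at hj3 hj4
        rw [(hXs hk).1] at hk3 hk4
        have eslot : rank X j % 2 = rank X k % 2 := by
          apply slot_eq (h := 2) (by norm_num) hj3 _ hk3 _
          · have := (hX j hj).2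
            push_cast at hj4 ⊢
            linarith
          · have := (hX k hk).2
            push_cast at hk4 ⊢
            linarith
        apply rank_inj hj hk
        omega
      · have := keyD hk hk1 hk2
        omega
    · have e1 := keyD hj hj1 hj2
      rcases hkm with hk | hk | hk
      · have := key hk hk1 hk2
        omega
      · have := keyX hk hk1 hk2
        omega
      · rw [(hDs hj).2] at hj1
        rw [(hDs hj).2, (hD j hj).1] at hj2
        rw [(hDs hk).2] at hk1
        rw [(hDs hk).2, (hD k hk).1] at hk2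
        have ecol : rank D j / h = rank D k / h :=
          col_eq (w := c) (x := x - (W + w * p)) (by omega) (by omega) (by omega) (by omega)
        rw [(hDs hj).1] at hj3 hj4
        rw [(hDs hk).1] at hk3 hk4
        have eslot : rank D j % h = rank D k % h := by
          apply slot_eq hh hj3 _ hk3 _
          · have := (hD j hj).2
            linarith
          · have := (hD k hk).2
            linarith
        apply rank_inj hj hk
        rw [← Nat.div_add_mod (rank D j) h, ← Nat.div_add_mod (rank D k) h, ecol, eslot]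
  · intro j
    by_cases hj1 : j ∈ F
    · rw [(hFs hj1).1, zero_add]
      exact hF j hj1
    by_cases hj2 : j ∈ X
    · rw [(hXs hj2).1]
      have h1 := (hX j hj2).2
      have h2 : rank X j % 2 ≤ 1 := by omega
      have h3 : ((rank X j % 2 : ℕ) : ℝ) ≤ 1 := by exact_mod_cast h2
      push_cast at h3 ⊢
      linarith
    by_cases hj3 : j ∈ D
    · rw [(hDs hj3).1]
      have h1 := (hD j hj3).2
      have h2 : rank D j % h + 1 ≤ h := Nat.mod_lt _ hh
      have h3 : ((rank D j % h : ℕ) : ℝ) + 1 ≤ h := by exact_mod_cast h2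
      have h4 : ((rank D j % h : ℕ) : ℝ) / h + 1 / h ≤ 1 := by
        rw [← add_div, div_le_one hh']
        exact h3
      linarith
    · rw [(h0s hj1 hj2 hj3).1, h0 j hj1 hj2 hj3]
      norm_num

end Pool.Agent.Helper310.Strip
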