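import Mathlib

/-!
# Counting lemmas in time
-/

set_option autoImplicit false

namespace Pool.Agent.Helper310.Strip

open Finset MeasureTheory

/-- If at most `K` of the intervals `[S j, S j + ℓ)` are active at every time of `[1/2, 1)` and at
most `M` at every time of `[1, B)`, then the total length is at most `K / 2 + M (B - 1)`. -/
lemma volume_bound {ι : Type*} (D : Finset ι) (S : ι → ℝ) (ℓ K M B : ℝ) (hℓ : 0 ≤ ℓ)
    (hB : 1 ≤ B) (h1 : ∀ j ∈ D, 1 / 2 ≤ S j) (h2 : ∀ j ∈ D, S j + ℓ ≤ B)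
    (hK : ∀ u : ℝ, 1 / 2 ≤ u → u < 1 →
      ((D.filter fun j => S j ≤ u ∧ u < S j + ℓ).card : ℝ) ≤ K)
    (hM : ∀ u : ℝ, 1 ≤ u → ((D.filter fun j => S j ≤ u ∧ u < S j + ℓ).card : ℝ) ≤ M) :
    (D.card : ℝ) * ℓ ≤ K / 2 + M * (B - 1) := by
  classical
  have hint : ∀ (a b c : ℝ), Integrable ((Set.Ico a b).indicator fun _ : ℝ => c) := by
    intro a b c
    apply IntegrableOn.integrable_indicator _ measurableSet_Ico
    exact integrableOn_const (by rw [Real.volume_Ico]; exact ENNReal.ofReal_ne_top)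
  have hval : ∀ (a b c : ℝ), a ≤ b →
      ∫ u, (Set.Ico a b).indicator (fun _ : ℝ => c) u = (b - a) * c := by
    intro a b c hab
    rw [integral_indicator measurableSet_Ico, setIntegral_const, smul_eq_mul, measureReal_def,
      Real.volume_Ico, ENNReal.toReal_ofReal (by linarith)]
  have hf : ∫ u, ∑ j ∈ D, (Set.Ico (S j) (S j + ℓ)).indicator (fun _ : ℝ => (1 : ℝ)) u =
      (D.card : ℝ) * ℓ := by
    rw [integral_finsetSum _ (fun j _ => hint _ _ _)]
    rw [sum_congr rfl (fun j _ => hval _ _ _ (by linarith))]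
    simp
  have hg : ∫ u, ((Set.Ico (1 / 2 : ℝ) 1).indicator (fun _ : ℝ => K) u +
      (Set.Ico (1 : ℝ) B).indicator (fun _ : ℝ => M) u) = K / 2 + M * (B - 1) := by
    rw [integral_add (hint _ _ _) (hint _ _ _), hval _ _ _ (by norm_num), hval _ _ _ hB]
    ring
  rw [← hf, ← hg]
  apply integral_mono (integrable_finsetSum _ fun j _ => hint _ _ _)
    ((hint _ _ _).add (hint _ _ _))
  intro u
  have hcount : ∑ j ∈ D, (Set.Ico (S j) (S j + ℓ)).indicator (fun _ : ℝ => (1 : ℝ)) u =
      ((D.filter fun j => S j ≤ u ∧ u < S j + ℓ).card : ℝ) := by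
    rw [card_filter]
    push_cast
    apply sum_congr rfl
    intro j _
    by_cases h : S j ≤ u ∧ u < S j + ℓ
    · rw [Set.indicator_of_mem (Set.mem_Ico.2 h), if_pos h]
    · rw [Set.indicator_of_notMem (fun h' => h (Set.mem_Ico.1 h')), if_neg h]
  simp only [hcount, Pi.add_apply]
  by_cases hu1 : u < 1 / 2
  · rw [Set.indicator_of_notMem (by rw [Set.mem_Ico]; intro h; linarith [h.1]),
      Set.indicator_of_notMem (by rw [Set.mem_Ico]; intro h; linarith [h.1])]
    rw [filter_eq_empty_iff.2 (by intro j hj h; linarith [h1 j hj, h.1])]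
    simp
  push Not at hu1
  by_cases hu2 : u < 1
  · rw [Set.indicator_of_mem (Set.mem_Ico.2 ⟨hu1, hu2⟩),
      Set.indicator_of_notMem (by rw [Set.mem_Ico]; intro h; linarith [h.1])]
    have := hK u hu1 hu2
    linarith
  push Not at hu2
  rw [Set.indicator_of_notMem (by rw [Set.mem_Ico]; intro h; linarith [h.2])]
  by_cases hu3 : u < B
  · rw [Set.indicator_of_mem (Set.mem_Ico.2 ⟨hu2, hu3⟩)]
    have := hM u hu2
    linarith
  · push Not at hu3
    rw [Set.indicator_of_notMem (by rw [Set.mem_Ico]; intro h; linarith [h.2])]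
    rw [filter_eq_empty_iff.2 (by intro j hj h; linarith [h2 j hj, h.2])]
    simp

end Pool.Agent.Helper310.Strip
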