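import Pool.Agent.Helper310.Strip.Defs
import Pool.Agent.Helper310.Strip.Comb
import Pool.Agent.Helper310.Strip.Time
import Pool.Agent.Helper310.Strip.Offline

/-!
# The adversary
-/

set_option autoImplicit false

namespace Pool.Agent.Helper310.Strip

open Finset

section

variable {m n : ℕ} (A : OnlineAlg m) (s : Fin n → ℕ)

/-- the jobs started before time `1/2` when all running times are `1` -/
noncomputable def early : Finset (Fin n) :=
  univ.filter fun j => (A.run s (fun _ => 1)).start j < 1 / 2

lemma mem_early {j : Fin n} : j ∈ early A s ↔ (A.run s (fun _ => 1)).start j < 1 / 2 := by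
  simp [early]

/-- the running times chosen by the adversary at time `1/2` -/
noncomputable def t₁ (X : Finset (Fin n)) (c : ℕ) (l : ℝ) (j : Fin n) : ℝ :=
  if j ∈ early A s then (if j ∈ X then 1 / 2 - (A.run s (fun _ => 1)).start j else 1)
  else if s j = c then l else 0

variable {A s} (hs : ∀ j, 1 ≤ s j ∧ s j ≤ m)

include hs

lemma feas₀ : Feasible m s (fun _ => 1) (A.run s (fun _ => 1)) :=
  A.feasible s _ hs fun _ => zero_le_one

lemma early_packing : IsPacking (early A s) (A.run s (fun _ => 1)).left s m := by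
  have hf := feas₀ (A := A) hs
  refine ⟨fun j _ => hf.fits j, ?_⟩
  intro j hj k hk x h1 h2 h3 h4
  rw [mem_early] at hj hk
  have hj0 := hf.start_nonneg j
  have hk0 := hf.start_nonneg k
  apply hf.one_job j k x (max ((A.run s (fun _ => 1)).start j) ((A.run s (fun _ => 1)).start k))
  · exact ⟨⟨h1, h2⟩, le_max_left _ _, max_lt (by linarith) (by linarith)⟩
  · exact ⟨⟨h3, h4⟩, le_max_right _ _, max_lt (by linarith) (by linarith)⟩

lemma t₁_nonneg {X : Finset (Fin n)} {c : ℕ} {l : ℝ} (hl : 0 ≤ l) (j : Fin n) :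
    0 ≤ t₁ A s X c l j := by
  unfold t₁
  split_ifs with h1 h2 h3
  · rw [mem_early] at h1
    linarith
  · norm_num
  · exact hl
  · exact le_rfl

lemma agree₁ {X : Finset (Fin n)} {c : ℕ} {l : ℝ} (hl : 0 ≤ l) (j : Fin n)
    (hj : (A.run s (fun _ => 1)).start j < 1 / 2 ∨
      (A.run s (t₁ A s X c l)).start j < 1 / 2) :
    (A.run s (t₁ A s X c l)).start j = (A.run s (fun _ => 1)).start j ∧
      (A.run s (t₁ A s X c l)).left j = (A.run s (fun _ => 1)).left j := by
  have hf := feas₀ (A := A) hs
  have key : ∀ τ : ℝ, τ < 1 / 2 →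
      SameView (fun _ => 1) (t₁ A s X c l) (A.run s (fun _ => 1)) τ := by
    intro τ hτ k hk
    right
    have hk0 := hf.start_nonneg k
    have hke : k ∈ early A s := by
      rw [mem_early]
      linarith
    refine ⟨by linarith, ?_⟩
    unfold t₁
    rw [if_pos hke]
    split_ifs with h
    · linarith
    · linarith
  rcases hj with hj | hj
  · exact A.nonanticipating s _ _ _ hs (fun _ => zero_le_one) (t₁_nonneg hs hl)
      (key _ hj) j (Or.inl le_rfl)
  · exact A.nonanticipating s _ _ _ hs (fun _ => zero_le_one) (t₁_nonneg hs hl)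
      (key _ hj) j (Or.inr le_rfl)

/-- **Attack lemma.** -/
theorem attack {κ : ℝ} (hA : A.Competitive κ) {c w p q h : ℕ} (hc : 1 ≤ c) (hh : 0 < h)
    {X : Finset (Fin n)} (hXR : X ⊆ early A s) (hX : ∀ j ∈ X, s j = w) {K : ℝ}
    (hcap : ∀ (Y : Finset (Fin n)) (P : Fin n → ℕ), (∀ y ∈ Y, P y + c ≤ m) →
      (∀ y ∈ Y, ∀ z ∈ Y, ∀ x, P y ≤ x → x < P y + c → P z ≤ x → x < P z + c → y = z) →
      (∀ y ∈ Y, ∀ j ∈ early A s, j ∉ X → ∀ x, P y ≤ x → x < P y + c →
        ¬ ((A.run s (fun _ => 1)).left j ≤ x ∧ x < (A.run s (fun _ => 1)).left j + s j)) →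
      (Y.card : ℝ) ≤ K)
    {D : Finset (Fin n)} (hD : ∀ j, j ∈ D ↔ j ∉ early A s ∧ s j = c) (hDne : D.Nonempty)
    (hXp : X.card ≤ 2 * p) (hDq : D.card ≤ h * q + 1)
    (hm : ∑ j ∈ early A s \ X, s j + w * p + c * q + c ≤ m) :
    (D.card : ℝ) * (1 / h) ≤ K / 2 + (m : ℝ) / c * max 0 (κ - 2 + 1 / h) := by
  classical
  have hh' : (0 : ℝ) < h := by exact_mod_cast hh
  have hl : (0 : ℝ) < 1 / h := by positivity
  have hc' : (0 : ℝ) < c := by exact_mod_cast hc
  set l : ℝ := 1 / h with hldef
  set T₁ := t₁ A s X c l with hT₁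
  have hT₁n : ∀ j, 0 ≤ T₁ j := t₁_nonneg hs hl.le
  set σ₀ := A.run s (fun _ => 1) with hσ₀
  set σ₁ := A.run s T₁ with hσ₁
  have hf₀ : Feasible m s (fun _ => 1) σ₀ := feas₀ (A := A) hs
  have hf₁ : Feasible m s T₁ σ₁ := A.feasible s _ hs hT₁n
  have hag : ∀ j, (σ₀.start j < 1 / 2 ∨ σ₁.start j < 1 / 2) →
      σ₁.start j = σ₀.start j ∧ σ₁.left j = σ₀.left j := fun j hj => agree₁ hs hl.le j hj
  have hTD : ∀ j ∈ D, T₁ j = l := by
    intro j hj
    rw [hD] at hj
    simp only [hT₁, t₁]
    rw [if_neg hj.1, if_pos hj.2]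
  have hTB : ∀ j ∈ early A s, j ∉ X → T₁ j = 1 := by
    intro j hj hjX
    simp only [hT₁, t₁]
    rw [if_pos hj, if_neg hjX]
  have hDlate : ∀ j ∈ D, 1 / 2 ≤ σ₁.start j := by
    intro j hj
    by_contra hlt
    push Not at hlt
    have h1 := hag j (Or.inr hlt)
    rw [hD] at hj
    apply hj.1
    rw [mem_early, ← hσ₀, ← h1.1]
    exact hlt
  obtain ⟨js, hjsD, hjs⟩ := D.exists_max_image (fun j => σ₁.start j) hDne
  have hjs' := (hD js).1 hjsD
  -- the last job of size `c` to be started gets running time one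
  set T₂ : Fin n → ℝ := Function.update T₁ js 1 with hT₂
  have hT₂n : ∀ j, 0 ≤ T₂ j := by
    intro j
    rw [hT₂, Function.update_apply]
    split_ifs
    · exact zero_le_one
    · exact hT₁n j
  have hT₂s : T₂ js = 1 := by rw [hT₂, Function.update_self]
  have hT₂o : ∀ j, j ≠ js → T₂ j = T₁ j := fun j hj => by
    rw [hT₂, Function.update_of_ne hj]
  have hview : SameView T₁ T₂ σ₁ (σ₁.start js) := by
    intro k hk
    by_cases hkj : k = js
    · right
      rw [hkj, hT₂s, hTD js hjsD]
      constructor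
      · linarith
      · linarith
    · rw [hT₂o k hkj]
      by_cases hkc : σ₁.start k + T₁ k ≤ σ₁.start js
      · exact Or.inl ⟨hkc, rfl⟩
      · push Not at hkc
        exact Or.inr ⟨hkc, hkc⟩
  have hst := (A.nonanticipating s T₁ T₂ (σ₁.start js) hs hT₁n hT₂n hview js (Or.inl le_rfl)).1
  -- the optimal schedule
  obtain ⟨σ, hσ1, hσ2⟩ := exists_offline s T₂ (fun j => (hs j).2) (insert js (early A s \ X)) X
    (D.erase js) w c p q h hh
    (by
      rw [disjoint_left]
      intro j hj hjX
      rw [mem_insert, mem_sdiff] at hj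
      rcases hj with rfl | hj
      · exact hjs'.1 (hXR hjX)
      · exact hj.2 hjX)
    (by
      rw [disjoint_left]
      intro j hj hjD
      rw [mem_erase] at hjD
      rw [mem_insert, mem_sdiff] at hj
      rcases hj with rfl | hj
      · exact hjD.1 rfl
      · exact ((hD j).1 hjD.2).1 hj.1)
    (by
      rw [disjoint_left]
      intro j hj hjD
      rw [mem_erase] at hjD
      exact ((hD j).1 hjD.2).1 (hXR hj))
    (by
      intro j hj
      rw [mem_insert, mem_sdiff] at hj
      rcases hj with rfl | hj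
      · rw [hT₂s]
      · have hne : j ≠ js := by
          rintro rfl
          exact hjs'.1 hj.1
        rw [hT₂o j hne, hTB j hj.1 hj.2])
    (by
      intro j hj
      have hje := hXR hj
      have hne : j ≠ js := by
        rintro rfl
        exact hjs'.1 hje
      refine ⟨hX j hj, ?_⟩
      rw [hT₂o j hne]
      simp only [hT₁, t₁]
      rw [if_pos hje, if_pos hj, ← hσ₀]
      linarith [hf₀.start_nonneg j])
    (by
      intro j hj
      rw [mem_erase] at hj
      refine ⟨((hD j).1 hj.2).2, ?_⟩
      rw [hT₂o j hj.1, hTD j hj.2])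
    (by
      intro j h1 h2 h3
      rw [mem_insert, not_or, mem_sdiff, not_and_or, not_not] at h1
      have hne : j ≠ js := h1.1
      have hje : j ∉ early A s := by
        intro hje
        rcases h1.2 with h4 | h4
        · exact h4 hje
        · exact h2 h4
      have hjD : j ∉ D := fun hjD => h3 (mem_erase.2 ⟨hne, hjD⟩)
      rw [hT₂o j hne]
      simp only [hT₁, t₁]
      rw [if_neg hje, if_neg]
      intro hsc
      exact hjD ((hD j).2 ⟨hje, hsc⟩))
    hXp
    (by
      rw [card_erase_of_mem hjsD]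
      omega)
    (by
      rw [sum_insert]
      · have := hjs'.2
        omega
      · rw [mem_sdiff]
        intro h1
        exact hjs'.1 h1.1)
  have hcomp := hA s T₂ hs hT₂n σ 1 hσ1 hσ2 js
  rw [hst, hT₂s, mul_one] at hcomp
  have hcomp' : σ₁.start js + 1 ≤ κ := hcomp
  -- counting
  have hvol := volume_bound D (fun j => σ₁.start j) l K ((m : ℝ) / c)
    (max 1 (σ₁.start js + l)) hl.le (le_max_left _ _) hDlate
    (by
      intro j hj
      exact le_max_of_le_right (by linarith [hjs j hj]))
    (by
      intro u hu1 hu2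
      apply hcap _ σ₁.left
      · intro y hy
        rw [mem_filter] at hy
        have h1 := hf₁.fits y
        rw [((hD y).1 hy.1).2] at h1
        exact h1
      · intro y hy z hz x h1 h2 h3 h4
        rw [mem_filter] at hy hz
        have ey := ((hD y).1 hy.1).2
        have ez := ((hD z).1 hz.1).2
        apply hf₁.one_job y z x u
        · exact ⟨⟨h1, by rw [ey]; exact h2⟩, hy.2.1, by rw [hTD y hy.1]; exact hy.2.2⟩
        · exact ⟨⟨h3, by rw [ez]; exact h4⟩, hz.2.1, by rw [hTD z hz.1]; exact hz.2.2⟩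
      · intro y hy j hj hjX x h1 h2 h3
        rw [mem_filter] at hy
        have ey := (hD y).1 hy.1
        have hj' := (mem_early A s).1 hj
        have hagj := hag j (Or.inl hj')
        have hj0 := hf₀.start_nonneg j
        have : y = j := by
          apply hf₁.one_job y j x u
          · exact ⟨⟨h1, by rw [ey.2]; exact h2⟩, hy.2.1, by rw [hTD y hy.1]; exact hy.2.2⟩
          · refine ⟨?_, ?_, ?_⟩
            · rw [hagj.2]
              exact h3
            · rw [hagj.1]
              linarith
            · rw [hagj.1, hTB j hj hjX]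
              linarith
        rw [this] at ey
        exact ey.1 hj)
    (by
      intro u hu
      set Y := D.filter fun j => σ₁.start j ≤ u ∧ u < σ₁.start j + l with hY
      have hfam : IdleFamily Y σ₁.left c (range m) := by
        constructor
        · intro y hy x _ h2
          rw [hY, mem_filter] at hy
          have h1 := hf₁.fits y
          rw [((hD y).1 hy.1).2] at h1
          rw [mem_range]
          omega
        · intro y hy z hz x h1 h2 h3 h4
          rw [hY, mem_filter] at hy hz
          have ey := ((hD y).1 hy.1).2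
          have ez := ((hD z).1 hz.1).2
          apply hf₁.one_job y z x u
          · exact ⟨⟨h1, by rw [ey]; exact h2⟩, hy.2.1, by rw [hTD y hy.1]; exact hy.2.2⟩
          · exact ⟨⟨h3, by rw [ez]; exact h4⟩, hz.2.1, by rw [hTD z hz.1]; exact hz.2.2⟩
      have h1 := hfam.card_le
      rw [card_range] at h1
      rw [le_div_iff₀ hc', mul_comm]
      exact_mod_cast h1)
  refine hvol.trans ?_
  have hmc : (0 : ℝ) ≤ (m : ℝ) / c := by positivity
  have hmax : max 1 (σ₁.start js + l) - 1 ≤ max 0 (κ - 2 + l) := by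
    rcases le_total 1 (σ₁.start js + l) with h1 | h1
    · rw [max_eq_right h1]
      exact le_max_of_le_right (by linarith)
    · rw [max_eq_left h1, sub_self]
      exact le_max_left _ _
  have := mul_le_mul_of_nonneg_left hmax hmc
  linarith

end

end Pool.Agent.Helper310.Strip
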