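import Mathlib

set_option autoImplicit false

namespace Pool.Agent.Helper310.Strip

/-- A schedule of `n` parallel jobs on a line of machines `0, 1, 2, ...`: for every job its start
time and the leftmost machine of its segment. -/
structure Schedule (n : ℕ) where
  /-- start times -/
  start : Fin n → ℝ
  /-- leftmost machines -/
  left : Fin n → ℕ

/-- Under the schedule `σ`, job `j` (which needs `s j` consecutive machines for `t j` time units)
occupies machine `x` at time `u`. -/
def Occupies {n : ℕ} (s : Fin n → ℕ) (t : Fin n → ℝ) (σ : Schedule n) (j : Fin n) (x : ℕ)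
    (u : ℝ) : Prop :=
  (σ.left j ≤ x ∧ x < σ.left j + s j) ∧ (σ.start j ≤ u ∧ u < σ.start j + t j)

/-- `σ` is a feasible schedule on the line of the machines `0, ..., m - 1` for jobs of sizes `s`
and running times `t`. -/
structure Feasible (m : ℕ) {n : ℕ} (s : Fin n → ℕ) (t : Fin n → ℝ) (σ : Schedule n) :
    Prop where
  /-- jobs start at time `0` or later -/
  start_nonneg : ∀ j, 0 ≤ σ.start j
  /-- the segment of a job consists of machines of the line -/
  fits : ∀ j, σ.left j + s j ≤ m
  /-- no machine runs two jobs at once -/
  one_job : ∀ j k x u, Occupies s t σ j x u → Occupies s t σ k x u → j = k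

/-- The makespan of `σ` is at most `T`. -/
def FinishedBy {n : ℕ} (t : Fin n → ℝ) (σ : Schedule n) (T : ℝ) : Prop :=
  ∀ j, σ.start j + t j ≤ T

/-- Along the schedule `σ`, the running times `t` and `t'` give the same observations up to (and
including) time `τ`: every job that is started by time `τ` is either completed by time `τ` and has
the same running time in `t'`, or is not completed by time `τ`, whichever of the two running times
it has. -/
def SameView {n : ℕ} (t t' : Fin n → ℝ) (σ : Schedule n) (τ : ℝ) : Prop :=
  ∀ j, σ.start j ≤ τ → (σ.start j + t j ≤ τ ∧ t' j = t j) ∨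
    (τ < σ.start j + t j ∧ τ < σ.start j + t' j)

/-- A deterministic online (batch-style) algorithm for the line of `m` machines. It knows all the
sizes `s`, and for all running times `t` it produces a feasible schedule `run s t`. It does not
know the running times: if along the schedule produced for `t` the running times `t` and `t'` give
the same observations up to time `τ`, then for `t` and for `t'` the algorithm starts the same jobs
up to time `τ`, at the same times and on the same machines. -/
structure OnlineAlg (m : ℕ) where
  /-- the schedule produced on an instance -/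
  run : ∀ {n : ℕ} (_s : Fin n → ℕ) (_t : Fin n → ℝ), Schedule n
  feasible : ∀ {n : ℕ} (s : Fin n → ℕ) (t : Fin n → ℝ),
    (∀ j, 1 ≤ s j ∧ s j ≤ m) → (∀ j, 0 ≤ t j) → Feasible m s t (run s t)
  nonanticipating : ∀ {n : ℕ} (s : Fin n → ℕ) (t t' : Fin n → ℝ) (τ : ℝ),
    (∀ j, 1 ≤ s j ∧ s j ≤ m) → (∀ j, 0 ≤ t j) → (∀ j, 0 ≤ t' j) →
    SameView t t' (run s t) τ →
    ∀ j, ((run s t).start j ≤ τ ∨ (run s t').start j ≤ τ) →
      (run s t').start j = (run s t).start j ∧ (run s t').left j = (run s t).left j

/-- `A` is `c`-competitive: on every instance, if some feasible (offline) schedule has makespan at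
most `T`, then the schedule produced by the algorithm has makespan at most `c * T`. -/
def OnlineAlg.Competitive {m : ℕ} (A : OnlineAlg m) (c : ℝ) : Prop :=
  ∀ {n : ℕ} (s : Fin n → ℕ) (t : Fin n → ℝ), (∀ j, 1 ≤ s j ∧ s j ≤ m) → (∀ j, 0 ≤ t j) →
    ∀ (σ : Schedule n) (T : ℝ), Feasible m s t σ → FinishedBy t σ T →
      FinishedBy t (A.run s t) (c * T)

end Pool.Agent.Helper310.Strip
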