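import Pool.Agent.Helper310.Strip.Adv

/-!
# The lower bound
-/

set_option autoImplicit false

namespace Pool.Agent.Helper310.Strip

open Finset

/-- `N` jobs of size `2` and `N` jobs of size `3` -/
def sz (N : ℕ) (j : Fin (N + N)) : ℕ := if j.val < N then 2 else 3

lemma sz_eq {N : ℕ} (j : Fin (N + N)) : sz N j = 2 ∨ sz N j = 3 := by
  unfold sz
  split_ifs
  · exact Or.inl rfl
  · exact Or.inr rfl

lemma card_two (N : ℕ) : N ≤ (univ.filter fun j : Fin (N + N) => sz N j = 2).card := by
  have h : (univ : Finset (Fin N)).card ≤ (univ.filter fun j : Fin (N + N) => sz N j = 2).card := by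
    apply card_le_card_of_injOn (fun i => Fin.castAdd N i)
    · intro i _
      rw [mem_coe, mem_filter]
      refine ⟨mem_univ _, ?_⟩
      unfold sz
      rw [if_pos]
      simp
    · intro i _ k _ hik
      exact Fin.castAdd_injective N N hik
  rwa [card_univ, Fintype.card_fin] at h

lemma card_three (N : ℕ) : N ≤ (univ.filter fun j : Fin (N + N) => sz N j = 3).card := by
  have h : (univ : Finset (Fin N)).card ≤ (univ.filter fun j : Fin (N + N) => sz N j = 3).card := by
    apply card_le_card_of_injOn (fun i => Fin.natAdd N i)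
    · intro i _
      rw [mem_coe, mem_filter]
      refine ⟨mem_univ _, ?_⟩
      unfold sz
      rw [if_neg]
      simp
    · intro i _ k _ hik
      exact Fin.natAdd_injective N N hik
  rwa [card_univ, Fintype.card_fin] at h

/-- numerical estimate for the volume of the short jobs -/
lemma vol_est {d q : ℕ} {m : ℝ} (hm : 0 < m) (hq : 0 < q) (hqm : (q : ℝ) ≤ m / 2)
    (hd : 2 * m ^ 2 ≤ (d : ℝ)) :
    (q : ℝ) - q / (4 * m) ≤ (d : ℝ) * (1 / ((d / q + 1 : ℕ) : ℝ)) ∧
      1 / ((d / q + 1 : ℕ) : ℝ) ≤ 1 / (4 * m) := by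
  have hq' : (0 : ℝ) < q := by exact_mod_cast hq
  have hd' : (0 : ℝ) < d := by nlinarith [sq_nonneg m, hm]
  have hh : (0 : ℝ) < ((d / q + 1 : ℕ) : ℝ) := by positivity
  have hmod := Nat.div_add_mod d q
  have hlt := Nat.mod_lt d hq
  have h1 : (d : ℝ) ≤ q * ((d / q + 1 : ℕ) : ℝ) := by
    have : d ≤ q * (d / q + 1) := by
      rw [mul_add, mul_one]
      omega
    exact_mod_cast this
  have h2 : (q : ℝ) * ((d / q + 1 : ℕ) : ℝ) ≤ d + q := by
    have : q * (d / q + 1) ≤ d + q := by
      rw [mul_add, mul_one]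
      omega
    exact_mod_cast this
  constructor
  · rw [mul_one_div, le_div_iff₀ hh]
    have h3 : ((q : ℝ) - q / (4 * m)) * ((d / q + 1 : ℕ) : ℝ) =
        (1 - 1 / (4 * m)) * (q * ((d / q + 1 : ℕ) : ℝ)) := by
      field_simp
    rw [h3]
    by_cases hneg : 1 - 1 / (4 * m) ≤ 0
    · have : (1 - 1 / (4 * m)) * (q * ((d / q + 1 : ℕ) : ℝ)) ≤ 0 :=
        mul_nonpos_of_nonpos_of_nonneg hneg (by positivity)
      linarith
    · push Not at hneg
      have h4 : (1 - 1 / (4 * m)) * (q * ((d / q + 1 : ℕ) : ℝ)) ≤ (1 - 1 / (4 * m)) * (d + q) :=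
        mul_le_mul_of_nonneg_left h2 hneg.le
      refine h4.trans ?_
      have h5 : (q : ℝ) ≤ 1 / (4 * m) * (d + q) := by
        rw [div_mul_eq_mul_div, one_mul, le_div_iff₀ (by positivity)]
        nlinarith
      nlinarith
  · apply one_div_le_one_div_of_le (by positivity)
    have h3 : 4 * m * q ≤ q * ((d / q + 1 : ℕ) : ℝ) := by
      nlinarith
    have h4 : (q : ℝ) * (4 * m) ≤ q * ((d / q + 1 : ℕ) : ℝ) := by linarith
    exact le_of_mul_le_mul_left h4 hq'

/-- **Lower bound** for a single deterministic online algorithm. -/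
theorem lower_bound {m : ℕ} (hm : 113 ≤ m) (A : OnlineAlg m) {κ : ℝ} (hA : A.Competitive κ) :
    33 / 16 - 7 / (m : ℝ) ≤ κ := by
  classical
  by_contra hlt
  push Not at hlt
  have hmR : (113 : ℝ) ≤ m := by exact_mod_cast hm
  have hm0 : (0 : ℝ) < m := by linarith
  set N : ℕ := 2 * m ^ 2 + m with hN
  have hs : ∀ j : Fin (N + N), 1 ≤ sz N j ∧ sz N j ≤ m := by
    intro j
    rcases sz_eq j with h | h
    · rw [h]
      omega
    · rw [h]
      omega
  set R := early A (sz N) with hR
  have hpack : IsPacking R (A.run (sz N) (fun _ => 1)).left (sz N) m := early_packing hs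
  set I := (idle R (A.run (sz N) (fun _ => 1)).left (sz N) m).card with hI
  set a := (R.filter fun j => sz N j = 3).card with ha
  set b := (R.filter fun j => sz N j = 2).card with hb
  have hsum : ∑ j ∈ R, sz N j = 3 * a + 2 * b := by
    have h1 : R = (R.filter fun j => sz N j = 3) ∪ (R.filter fun j => sz N j = 2) := by
      ext j
      simp only [mem_union, mem_filter]
      rcases sz_eq j with h | h
      · simp [h]
      · simp [h]
    have h2 : Disjoint (R.filter fun j => sz N j = 3) (R.filter fun j => sz N j = 2) := by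
      rw [disjoint_left]
      intro j h3 h4
      rw [mem_filter] at h3 h4
      omega
    rw [h1, sum_union h2, sum_congr rfl (fun j hj => (mem_filter.1 hj).2),
      sum_congr (s₁ := R.filter fun j => sz N j = 2) rfl (fun j hj => (mem_filter.1 hj).2),
      sum_const, sum_const, smul_eq_mul, smul_eq_mul]
    omega
  have htot : I + (3 * a + 2 * b) = m := by
    rw [← hsum]
    exact card_idle hpack
  have hdiff : ∀ X : Finset (Fin (N + N)), X ⊆ R → ∀ w : ℕ, (∀ j ∈ X, sz N j = w) →
      ∑ j ∈ R \ X, sz N j + X.card * w = 3 * a + 2 * b := by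
    intro X hX w hw
    rw [← hsum, ← sum_sdiff hX, sum_congr (s₁ := X) rfl hw, sum_const, smul_eq_mul]
  have hDcard : ∀ c : ℕ, N ≤ (univ.filter fun j : Fin (N + N) => sz N j = c).card →
      (2 * m ^ 2 : ℝ) ≤
        ((univ.filter fun j : Fin (N + N) => j ∉ R ∧ sz N j = c).card : ℝ) := by
    intro c hc
    have h1 : (univ.filter fun j : Fin (N + N) => sz N j = c) ⊆
        (univ.filter fun j : Fin (N + N) => j ∉ R ∧ sz N j = c) ∪ R := by
      intro j hj
      rw [mem_filter] at hj
      rw [mem_union, mem_filter]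
      by_cases hjR : j ∈ R
      · exact Or.inr hjR
      · exact Or.inl ⟨mem_univ _, hjR, hj.2⟩
    have h2 := (Finset.card_le_card h1).trans (card_union_le _ _)
    have h3 : R.card ≤ ∑ j ∈ R, sz N j := by
      rw [card_eq_sum_ones]
      exact sum_le_sum fun j _ => (hs j).1
    have h4 : 2 * m ^ 2 ≤ (univ.filter fun j : Fin (N + N) => j ∉ R ∧ sz N j = c).card := by
      omega
    exact_mod_cast h4
  have hDmem : ∀ c : ℕ, ∀ j, j ∈ (univ.filter fun j : Fin (N + N) => j ∉ R ∧ sz N j = c) ↔
      j ∉ early A (sz N) ∧ sz N j = c := by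
    intro c j
    simp [hR]
  have hDne : ∀ c : ℕ, N ≤ (univ.filter fun j : Fin (N + N) => sz N j = c).card →
      (univ.filter fun j : Fin (N + N) => j ∉ R ∧ sz N j = c).Nonempty := by
    intro c hc
    have h1 := hDcard c hc
    rw [← card_pos]
    by_contra h0
    push Not at h0
    have h2 : (univ.filter fun j : Fin (N + N) => j ∉ R ∧ sz N j = c).card = 0 := by omega
    rw [h2] at h1
    have h3 : (0 : ℝ) < 2 * (m : ℝ) ^ 2 := by positivity
    norm_num at h1
    nlinarith
  have hcases : m ≤ 4 * a + 4 * I ∨ m + 8 * I ≤ 8 * b := by omega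
  rcases hcases with hcase | hcase
  · -- long jobs of size 2
    obtain ⟨X, K, hXR, hXw, hK, haK, hcap⟩ := attack_three hpack
    set p := (X.card + 1) / 2 with hp
    set q := (I + 3 * X.card - 3 * p - 2) / 2 with hq
    set D := univ.filter fun j : Fin (N + N) => j ∉ R ∧ sz N j = 2 with hD
    have hd := hdiff X hXR 3 hXw
    have hXa : X.card ≤ a := by
      rw [ha]
      apply Finset.card_le_card
      intro j hj
      exact mem_filter.2 ⟨hXR hj, hXw j hj⟩
    have hq0 : 0 < q := by omega
    have hq1 : 2 * q ≤ m := by omega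
    have hq2 : 2 * I + 3 * X.card ≤ 4 * q + 9 := by omega
    have hDc := hDcard 2 (card_two N)
    have hqm : (q : ℝ) ≤ (m : ℝ) / 2 := by
      have : (2 * q : ℝ) ≤ m := by exact_mod_cast hq1
      linarith
    obtain ⟨hv1, hv2⟩ := vol_est hm0 hq0 hqm hDc
    have hatt := attack hs hA (c := 2) (w := 3) (p := p) (q := q) (h := D.card / q + 1) (D := D)
      (by norm_num) (Nat.succ_pos _) hXR hXw (K := (X.card : ℝ) + K)
      (by
        intro Y P h1 h2 h3
        have := hcap Y P h1 h2 h3
        exact_mod_cast this)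
      (hDmem 2) (hDne 2 (card_two N)) (by omega)
      (by
        have hmod := Nat.div_add_mod D.card q
        have hlt' := Nat.mod_lt D.card hq0
        have : (D.card / q + 1) * q = q * (D.card / q) + q := by ring
        rw [this]
        omega)
      (by
        have h1 : ∑ j ∈ early A (sz N) \ X, sz N j + X.card * 3 = 3 * a + 2 * b := hd
        omega)
    rw [← hD] at hv1 hv2
    set l := 1 / ((D.card / q + 1 : ℕ) : ℝ) with hl
    have hkey : (m : ℝ) / 16 - 19 / 4 ≤ (m : ℝ) * max 0 (κ - 2 + l) := by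
      have e1 : (q : ℝ) / (4 * m) ≤ 1 / 8 := by
        rw [div_le_iff₀ (by positivity)]
        linarith
      have e2 : (2 * I + 3 * X.card : ℝ) ≤ 4 * q + 9 := by exact_mod_cast hq2
      have e3 : (a + 2 * K : ℝ) ≤ 2 * X.card + 2 * I := by exact_mod_cast haK
      have e4 : (2 * K : ℝ) ≤ I := by exact_mod_cast hK
      have e5 : (m : ℝ) ≤ 4 * a + 4 * I := by exact_mod_cast hcase
      push_cast at hatt
      linarith
    have hpos : 0 < κ - 2 + l := by
      by_contra hneg
      push Not at hneg
      rw [max_eq_left hneg] at hkey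
      linarith
    rw [max_eq_right hpos.le] at hkey
    have e6 : (m : ℝ) * l ≤ 1 / 4 := by
      calc (m : ℝ) * l ≤ m * (1 / (4 * m)) := mul_le_mul_of_nonneg_left hv2 hm0.le
        _ = 1 / 4 := by field_simp
    have e7 : (m : ℝ) * (33 / 16 - 7 / (m : ℝ)) = 33 / 16 * m - 7 := by field_simp
    have e8 : (m : ℝ) * κ < m * (33 / 16 - 7 / (m : ℝ)) := mul_lt_mul_of_pos_left hlt hm0
    rw [e7] at e8
    linarith
  · -- long jobs of size 3
    obtain ⟨X, hXR, hXw, hbX, hcap⟩ := attack_two hpack
    set p := (X.card + 1) / 2 with hp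
    set q := (I + 2 * X.card - 2 * p - 3) / 3 with hq
    set D := univ.filter fun j : Fin (N + N) => j ∉ R ∧ sz N j = 3 with hD
    have hd := hdiff X hXR 2 hXw
    have hXb : X.card ≤ b := by
      rw [hb]
      apply Finset.card_le_card
      intro j hj
      exact mem_filter.2 ⟨hXR hj, hXw j hj⟩
    have hq0 : 0 < q := by omega
    have hq1 : 3 * q ≤ m := by omega
    have hq2 : I + X.card ≤ 3 * q + 6 := by omega
    have hDc := hDcard 3 (card_three N)
    have hqm : (q : ℝ) ≤ (m : ℝ) / 2 := by
      have : (3 * q : ℝ) ≤ m := by exact_mod_cast hq1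
      linarith
    obtain ⟨hv1, hv2⟩ := vol_est hm0 hq0 hqm hDc
    have hatt := attack hs hA (c := 3) (w := 2) (p := p) (q := q) (h := D.card / q + 1) (D := D)
      (by norm_num) (Nat.succ_pos _) hXR hXw (K := (I : ℝ) / 3)
      (by
        intro Y P h1 h2 h3
        have := hcap Y P h1 h2 h3
        have h4 : (3 * Y.card : ℝ) ≤ I := by exact_mod_cast this
        linarith)
      (hDmem 3) (hDne 3 (card_three N)) (by omega)
      (by
        have hmod := Nat.div_add_mod D.card q
        have hlt' := Nat.mod_lt D.card hq0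
        have : (D.card / q + 1) * q = q * (D.card / q) + q := by ring
        rw [this]
        omega)
      (by
        have h1 : ∑ j ∈ early A (sz N) \ X, sz N j + X.card * 2 = 3 * a + 2 * b := hd
        omega)
    rw [← hD] at hv1 hv2
    set l := 1 / ((D.card / q + 1 : ℕ) : ℝ) with hl
    have hkey : (m : ℝ) / 16 - 6 - 1 / 4 ≤ (m : ℝ) * max 0 (κ - 2 + l) := by
      have e1 : (q : ℝ) / (4 * m) ≤ 1 / 12 := by
        have : (3 * q : ℝ) ≤ m := by exact_mod_cast hq1
        rw [div_le_iff₀ (by positivity)]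
        linarith
      have e2 : (I + X.card : ℝ) ≤ 3 * q + 6 := by exact_mod_cast hq2
      have e3 : (b : ℝ) ≤ 2 * X.card + 2 * I := by exact_mod_cast hbX
      have e5 : (m : ℝ) + 8 * I ≤ 8 * b := by exact_mod_cast hcase
      push_cast at hatt
      linarith
    have hpos : 0 < κ - 2 + l := by
      by_contra hneg
      push Not at hneg
      rw [max_eq_left hneg] at hkey
      linarith
    rw [max_eq_right hpos.le] at hkey
    have e6 : (m : ℝ) * l ≤ 1 / 4 := by
      calc (m : ℝ) * l ≤ m * (1 / (4 * m)) := mul_le_mul_of_nonneg_left hv2 hm0.le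
        _ = 1 / 4 := by field_simp
    have e7 : (m : ℝ) * (33 / 16 - 7 / (m : ℝ)) = 33 / 16 * m - 7 := by field_simp
    have e8 : (m : ℝ) * κ < m * (33 / 16 - 7 / (m : ℝ)) := mul_lt_mul_of_pos_left hlt hm0
    rw [e7] at e8
    linarith

end Pool.Agent.Helper310.Strip
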