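import Pool.Agent.Helper310.Strip.Defs

/-!
# Sanity check: an online algorithm which is `m`-competitive
-/

set_option autoImplicit false

namespace Pool.Agent.Helper310.Strip

open Finset

/-- disjoint half-open intervals in `[0, T)` -/
lemma sum_Ico_le {ι : Type*} (S : Finset ι) (l t : ι → ℝ) {T : ℝ} (ht : ∀ j ∈ S, 0 ≤ t j)
    (hl : ∀ j ∈ S, 0 ≤ l j) (hr : ∀ j ∈ S, l j + t j ≤ T) (hT : 0 ≤ T)
    (hd : ∀ j ∈ S, ∀ k ∈ S, ∀ x, l j ≤ x → x < l j + t j → l k ≤ x → x < l k + t k → j = k) :
    ∑ j ∈ S, t j ≤ T := by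
  have h1 : MeasureTheory.volume (⋃ j ∈ S, Set.Ico (l j) (l j + t j)) =
      ∑ j ∈ S, MeasureTheory.volume (Set.Ico (l j) (l j + t j)) := by
    apply MeasureTheory.measure_biUnion_finset
    · intro j hj k hk hjk
      rw [Function.onFun, Set.disjoint_left]
      intro x hx hx'
      exact hjk (hd j hj k hk x hx.1 hx.2 hx'.1 hx'.2)
    · intro j _
      exact measurableSet_Ico
  have h2 : MeasureTheory.volume (⋃ j ∈ S, Set.Ico (l j) (l j + t j)) ≤
      MeasureTheory.volume (Set.Ico 0 T) := by
    apply MeasureTheory.measure_mono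
    intro x hx
    simp only [Set.mem_iUnion] at hx
    obtain ⟨j, hj, hx⟩ := hx
    exact ⟨(hl j hj).trans hx.1, hx.2.trans_le (hr j hj)⟩
  rw [h1, Real.volume_Ico, sub_zero] at h2
  have h3 : ∑ j ∈ S, MeasureTheory.volume (Set.Ico (l j) (l j + t j)) =
      ENNReal.ofReal (∑ j ∈ S, t j) := by
    rw [ENNReal.ofReal_sum_of_nonneg ht]
    apply Finset.sum_congr rfl
    intro j _
    rw [Real.volume_Ico, add_sub_cancel_left]
  rw [h3] at h2
  exact (ENNReal.ofReal_le_ofReal_iff hT).1 h2

/-- start times of the sequential schedule -/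
noncomputable def seqStart {n : ℕ} (t : Fin n → ℝ) (j : Fin n) : ℝ :=
  ∑ i ∈ univ.filter (fun i => i < j), t i

lemma seqStart_add_le {n : ℕ} {t : Fin n → ℝ} (ht : ∀ j, 0 ≤ t j) {j k : Fin n} (h : j < k) :
    seqStart t j + t j ≤ seqStart t k := by
  unfold seqStart
  rw [add_comm, ← sum_insert (s := univ.filter (fun i => i < j)) (a := j) (by simp)]
  apply sum_le_sum_of_subset_of_nonneg
  · intro i hi
    rw [mem_insert, mem_filter] at hi
    rw [mem_filter]
    rcases hi with rfl | hi
    · exact ⟨mem_univ _, h⟩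
    · exact ⟨mem_univ _, hi.2.trans h⟩
  · intro i _ _
    exact ht i

lemma seqStart_nonneg {n : ℕ} {t : Fin n → ℝ} (ht : ∀ j, 0 ≤ t j) (j : Fin n) :
    0 ≤ seqStart t j := sum_nonneg fun i _ => ht i

lemma seq_view {n : ℕ} {t t' : Fin n → ℝ} (ht : ∀ j, 0 ≤ t j) (ht' : ∀ j, 0 ≤ t' j) {τ : ℝ}
    (h : ∀ j, seqStart t j ≤ τ → (seqStart t j + t j ≤ τ ∧ t' j = t j) ∨
      (τ < seqStart t j + t j ∧ τ < seqStart t j + t' j)) (j : Fin n)
    (hj : seqStart t j ≤ τ ∨ seqStart t' j ≤ τ) : seqStart t' j = seqStart t j := by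
  have key : ∀ k, (∀ i < k, seqStart t i + t i ≤ τ) → seqStart t' k = seqStart t k := by
    intro k hk
    unfold seqStart
    apply sum_congr rfl
    intro i hi
    rw [mem_filter] at hi
    have h1 := hk i hi.2
    rcases h i (by linarith [ht i]) with h2 | h2
    · exact h2.2
    · linarith [h2.1]
  by_cases hall : ∀ i < j, seqStart t i + t i ≤ τ
  · exact key j hall
  exfalso
  push Not at hall
  obtain ⟨i₀, hi₀, hi₀'⟩ := hall
  let B : Finset (Fin n) := univ.filter fun i => i < j ∧ τ < seqStart t i + t i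
  have hB : B.Nonempty := ⟨i₀, by simp [B, hi₀, hi₀']⟩
  set i := B.min' hB with hi
  have hiB : i ∈ B := B.min'_mem hB
  simp only [B, mem_filter, mem_univ, true_and] at hiB
  have hmin : ∀ k < i, seqStart t k + t k ≤ τ := by
    intro k hk
    by_contra hcon
    push Not at hcon
    have : k ∈ B := by
      simp only [B, mem_filter, mem_univ, true_and]
      exact ⟨hk.trans hiB.1, hcon⟩
    exact absurd (B.min'_le k this) (not_le.2 hk)
  have hi1 := key i hmin
  have hi2 := seqStart_add_le ht hiB.1
  have hi3 := seqStart_add_le ht' hiB.1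
  rcases hj with hj | hj
  · linarith [hiB.2]
  · have hs : seqStart t i ≤ τ := by
      have := ht' i
      linarith
    rcases h i hs with h4 | h4
    · linarith [hiB.2, h4.1]
    · linarith [h4.2]

/-- The algorithm which runs the jobs one after another. -/
noncomputable def seqAlg (m : ℕ) : OnlineAlg m where
  run := fun _ t => ⟨fun j => seqStart t j, fun _ => 0⟩
  feasible := by
    intro n s t hs ht
    refine ⟨fun j => seqStart_nonneg ht j, fun j => ?_, ?_⟩
    · have := (hs j).2
      simpa using this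
    · rintro j k x u ⟨_, hj1, hj2⟩ ⟨_, hk1, hk2⟩
      rcases lt_trichotomy j k with h | h | h
      · have := seqStart_add_le ht h
        simp only at hj1 hj2 hk1 hk2
        linarith
      · exact h
      · have := seqStart_add_le ht h
        simp only at hj1 hj2 hk1 hk2
        linarith
  nonanticipating := by
    intro n s t t' τ _ ht ht' hview j hj
    exact ⟨seq_view ht ht' hview j hj, rfl⟩

/-- The model is not vacuous. -/
theorem exists_competitive (m : ℕ) : ∃ A : OnlineAlg m, A.Competitive m := by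
  classical
  refine ⟨seqAlg m, ?_⟩
  intro n s t hs ht σ T hσ hT j
  have hT0 : 0 ≤ T := by
    have h1 := hT j
    have h2 := hσ.start_nonneg j
    have h3 := ht j
    linarith
  have h1 : ∑ i, t i = ∑ x ∈ range m, ∑ i ∈ univ.filter (fun i => σ.left i = x), t i := by
    rw [sum_fiberwise_of_maps_to]
    intro i _
    rw [mem_range]
    have h2 := hσ.fits i
    have h3 := (hs i).1
    omega
  have h2 : ∑ i, t i ≤ m * T := by
    rw [h1]
    calc ∑ x ∈ range m, ∑ i ∈ univ.filter (fun i => σ.left i = x), t i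
        ≤ ∑ x ∈ range m, T := by
          apply sum_le_sum
          intro x _
          apply sum_Ico_le _ (fun i => σ.start i) t (fun i _ => ht i)
            (fun i _ => hσ.start_nonneg i) (fun i _ => hT i) hT0
          intro i hi k hk u h3 h4 h5 h6
          rw [mem_filter] at hi hk
          have hi1 := (hs i).1
          have hk1 := (hs k).1
          exact hσ.one_job i k x u ⟨⟨by omega, by omega⟩, h3, h4⟩ ⟨⟨by omega, by omega⟩, h5, h6⟩
      _ = m * T := by simp
  have h3 : seqStart t j + t j ≤ ∑ i, t i := by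
    unfold seqStart
    rw [add_comm, ← sum_insert (s := univ.filter (fun i => i < j)) (a := j) (by simp)]
    apply sum_le_sum_of_subset_of_nonneg (subset_univ _)
    intro i _ _
    exact ht i
  exact h3.trans h2

end Pool.Agent.Helper310.Strip
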